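import Pool.Agent.Run7.h198.CA.Defs

/-!
# Project CA (helper198): the piece COMB
-/

set_option autoImplicit false

namespace Pool.Agent.Run7.h957.CA

open Finset Pool.Agent.Run7.h198.CA

section
variable {T : Type} {K M : ℕ}

/-- the trace of a sequence -/
def Phi (f g : T → ZMod K) (x : Fin M → T) (i : Fin (M + 1)) : ZMod K :=
  (if h : i.1 < M then f (x ⟨i.1, h⟩) else 0) -
    (if h : 0 < i.1 then g (x ⟨i.1 - 1, by have := i.2; omega⟩) else 0)

theorem first (f g : T → ZMod K) (x y : Fin M → T) (h : Phi f g x = Phi f g y) (i : Fin M)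
    (hi : ∀ j, j < i → x j = y j) : f (x i) = f (y i) := by
  have h1 := congrFun h ⟨i.1, by have := i.2; omega⟩
  unfold Phi at h1
  simp only [i.2, dif_pos] at h1
  by_cases h0 : 0 < i.1
  · have h2 : x ⟨i.1 - 1, by have := i.2; omega⟩ = y ⟨i.1 - 1, by have := i.2; omega⟩ :=
      hi _ (by rw [Fin.lt_def]; show i.1 - 1 < i.1; omega)
    rw [dif_pos h0, dif_pos h0, h2] at h1
    exact sub_left_injective h1
  · rw [dif_neg h0, dif_neg h0] at h1
    exact sub_left_injective h1

theorem last (f g : T → ZMod K) (x y : Fin M → T) (h : Phi f g x = Phi f g y) (i : Fin M)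
    (hi : ∀ j, i < j → x j = y j) : g (x i) = g (y i) := by
  have h1 := congrFun h ⟨i.1 + 1, by have := i.2; omega⟩
  unfold Phi at h1
  simp only [Nat.succ_pos, dif_pos, Nat.add_sub_cancel] at h1
  by_cases h0 : i.1 + 1 < M
  · have h2 : x ⟨i.1 + 1, h0⟩ = y ⟨i.1 + 1, h0⟩ :=
      hi _ (by rw [Fin.lt_def]; show i.1 < i.1 + 1; omega)
    rw [dif_pos h0, dif_pos h0, h2] at h1
    exact sub_right_injective h1
  · rw [dif_neg h0, dif_neg h0] at h1
    exact sub_right_injective h1

end

theorem t_COMB : S_COMB := by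
  classical
  intro T _ _ K M _ f g
  obtain ⟨v, hv⟩ : ∃ v : Fin (M + 1) → ZMod K, (Fintype.card T) ^ M ≤
      ((univ : Finset (Fin M → T)).filter fun x => Phi f g x = v).card * K ^ (M + 1) := by
    by_contra hno
    push Not at hno
    have h1 : ((univ : Finset (Fin M → T)).card) = ∑ v : Fin (M + 1) → ZMod K,
        ((univ : Finset (Fin M → T)).filter fun x => Phi f g x = v).card :=
      Finset.card_eq_sum_card_fiberwise (fun x _ => Finset.mem_coe.mpr (Finset.mem_univ _))
    have h2 : ∑ v : Fin (M + 1) → ZMod K,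
        ((univ : Finset (Fin M → T)).filter fun x => Phi f g x = v).card * K ^ (M + 1) <
        ∑ _v : Fin (M + 1) → ZMod K, (Fintype.card T) ^ M :=
      Finset.sum_lt_sum_of_nonempty Finset.univ_nonempty (fun v _ => hno v)
    rw [← Finset.sum_mul, ← h1, Finset.sum_const, Finset.card_univ, Finset.card_univ,
      Fintype.card_fun, Fintype.card_fun, Fintype.card_fin, Fintype.card_fin, ZMod.card,
      smul_eq_mul, mul_comm] at h2
    exact lt_irrefl _ h2
  refine ⟨_, hv, ?_⟩
  intro x hx y hy hxy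
  have hP : Phi f g x = Phi f g y := by
    rw [(Finset.mem_filter.mp hx).2, (Finset.mem_filter.mp hy).2]
  obtain ⟨S, hS⟩ : ∃ S : Finset (Fin M), ∀ i, i ∈ S ↔ x i ≠ y i :=
    ⟨(univ : Finset (Fin M)).filter fun i => x i ≠ y i, fun i => by simp⟩
  have hne : S.Nonempty := by
    obtain ⟨i, hi⟩ := Function.ne_iff.mp hxy
    exact ⟨i, (hS i).mpr hi⟩
  constructor
  · obtain ⟨i, hi⟩ : ∃ i, i = S.min' hne := ⟨_, rfl⟩
    have h1 := (hS _).mp (S.min'_mem hne)
    refine ⟨i, by rw [hi]; exact h1, first f g x y hP i ?_⟩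
    intro j hj
    by_contra hn
    have h2 := S.min'_le j ((hS j).mpr hn)
    rw [← hi] at h2
    exact absurd hj (not_lt.mpr h2)
  · obtain ⟨i, hi⟩ : ∃ i, i = S.max' hne := ⟨_, rfl⟩
    have h1 := (hS _).mp (S.max'_mem hne)
    refine ⟨i, by rw [hi]; exact h1, last f g x y hP i ?_⟩
    intro j hj
    by_contra hn
    have h2 := S.le_max' j ((hS j).mpr hn)
    rw [← hi] at h2
    exact absurd hj (not_lt.mpr h2)

end Pool.Agent.Run7.h957.CA
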