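import Pool.Agent.Run7.h198.CA.Defs

/-!
# Project CA (helper198): the piece COVER
-/

set_option autoImplicit false

namespace Pool.Agent.Run7.h957.CA

open Finset Pool.Agent.Run7.h198.CA

section
variable {n N t p : ℕ}

theorem unif_comp (s : Equiv.Perm (Fin N)) (w : Fin N → Fin n) (hw : Unif t w) :
    Unif t (w ∘ s) := by
  intro a
  rw [← hw a]
  refine Finset.card_equiv s fun i => ?_
  simp

theorem sep_comp (s : Equiv.Perm (Fin N)) (E : Finset (Fin n × Fin n)) (x y : Fin N → Fin n)
    (h : Sep p E (x ∘ s) (y ∘ s)) : Sep p E x y := by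
  intro e he
  have h1 := h e he
  have h2 : (univ.filter fun i => (x ∘ s) i = e.1 ∧ (y ∘ s) i = e.2).card =
      (univ.filter fun i => x i = e.1 ∧ y i = e.2).card := by
    refine Finset.card_equiv s fun i => ?_
    simp
  rwa [h2] at h1

theorem trans_perm (x y : Fin N → Fin n) (hx : Unif t x) (hy : Unif t y) :
    ∃ s : Equiv.Perm (Fin N), x ∘ s = y := by
  have h1 : ∀ a : Fin n, Nonempty ({i // y i = a} ≃ {i // x i = a}) := by
    intro a
    refine ⟨Fintype.equivOfCardEq ?_⟩
    rw [Fintype.card_subtype, Fintype.card_subtype, hx a, hy a]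
  have e := fun a => (h1 a).some
  refine ⟨(Equiv.sigmaFiberEquiv y).symm.trans ((Equiv.sigmaCongrRight e).trans
    (Equiv.sigmaFiberEquiv x)), ?_⟩
  funext i
  exact (e (y i) ⟨i, rfl⟩).2

/-- the number of permutations from `c` to `r` -/
noncomputable def cnt (c r : Fin N → Fin n) : ℕ := by
  classical
  exact ((univ : Finset (Equiv.Perm (Fin N))).filter fun s : Equiv.Perm (Fin N) => c ∘ ⇑s = r).card

theorem cnt_comp (c r : Fin N → Fin n) (h : Equiv.Perm (Fin N)) : cnt c (r ∘ h) = cnt c r := by
  classical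
  unfold cnt
  refine Finset.card_equiv (Equiv.mulRight h⁻¹) fun s => ?_
  simp only [Finset.mem_filter, Finset.mem_univ, true_and, Equiv.coe_mulRight]
  constructor
  · intro h1
    funext i
    have h2 := congrFun h1 (h⁻¹ i)
    simpa using h2
  · intro h1
    funext i
    have h2 := congrFun h1 (h i)
    simpa using h2

open scoped Classical in
/-- all uniform words -/
noncomputable def TT (n N t : ℕ) : Finset (Fin N → Fin n) := univ.filter fun w => Unif t w

theorem mem_TT (w : Fin N → Fin n) : w ∈ TT n N t ↔ Unif t w := by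
  unfold TT
  simp

theorem cnt_mul (c r : Fin N → Fin n) (hc : Unif t c) (hr : Unif t r) :
    cnt c r * (TT n N t).card = Fintype.card (Equiv.Perm (Fin N)) := by
  classical
  have h1 : ((univ : Finset (Equiv.Perm (Fin N)))).card = ∑ r' ∈ TT n N t,
      ((univ : Finset (Equiv.Perm (Fin N))).filter fun s : Equiv.Perm (Fin N) => c ∘ ⇑s = r').card :=
    Finset.card_eq_sum_card_fiberwise (f := fun s : Equiv.Perm (Fin N) => c ∘ s)
      (fun s _ => Finset.mem_coe.mpr ((mem_TT _).mpr (unif_comp s c hc)))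
  have h2 : ∀ r' ∈ TT n N t,
      ((univ : Finset (Equiv.Perm (Fin N))).filter fun s : Equiv.Perm (Fin N) => c ∘ ⇑s = r').card = cnt c r := by
    intro r' hr'
    obtain ⟨h, hh⟩ := trans_perm r r' hr ((mem_TT _).mp hr')
    rw [← hh]
    exact cnt_comp c r h
  rw [Finset.sum_congr rfl h2, Finset.sum_const, smul_eq_mul, Finset.card_univ] at h1
  rw [h1, mul_comm]

theorem exists_cover (C R : Finset (Fin N → Fin n)) (hC : ∀ x ∈ C, Unif t x)
    (hR : ∀ x ∈ R, Unif t x) : ∃ s : Equiv.Perm (Fin N),
      R.card * C.card ≤ (R.filter fun x => x ∘ s ∈ C).card * (TT n N t).card := by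
  classical
  by_contra hno
  push Not at hno
  have h1 : ∑ s : Equiv.Perm (Fin N), (R.filter fun x => x ∘ s ∈ C).card * (TT n N t).card <
      ∑ _s : Equiv.Perm (Fin N), R.card * C.card :=
    Finset.sum_lt_sum_of_nonempty Finset.univ_nonempty (fun s _ => hno s)
  have h2 : ∑ s : Equiv.Perm (Fin N), (R.filter fun x => x ∘ s ∈ C).card =
      ∑ x ∈ R, ∑ c ∈ C, cnt x c := by
    have h3 : ∀ s : Equiv.Perm (Fin N), (R.filter fun x => x ∘ s ∈ C).card =
        ∑ x ∈ R, ∑ c ∈ C, if x ∘ s = c then 1 else 0 := by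
      intro s
      rw [Finset.card_filter]
      refine Finset.sum_congr rfl fun x _ => ?_
      rw [Finset.sum_ite_eq]
    rw [Finset.sum_congr rfl fun s _ => h3 s, Finset.sum_comm]
    refine Finset.sum_congr rfl fun x _ => ?_
    rw [Finset.sum_comm]
    refine Finset.sum_congr rfl fun c _ => ?_
    unfold cnt
    rw [Finset.card_filter]
  rw [← Finset.sum_mul, h2, Finset.sum_mul, Finset.sum_const, Finset.card_univ] at h1
  have h4 : ∑ x ∈ R, (∑ c ∈ C, cnt x c) * (TT n N t).card =
      ∑ x ∈ R, ∑ c ∈ C, Fintype.card (Equiv.Perm (Fin N)) := by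
    refine Finset.sum_congr rfl fun x hx => ?_
    rw [Finset.sum_mul]
    exact Finset.sum_congr rfl fun c hc => cnt_mul x c (hR x hx) (hC c hc)
  rw [h4, Finset.sum_const, Finset.sum_const, smul_eq_mul, smul_eq_mul, smul_eq_mul,
    ← mul_assoc, mul_comm] at h1
  exact lt_irrefl _ h1

theorem label (E : Finset (Fin n × Fin n)) (C : Finset (Fin N → Fin n))
    (hC : ∀ x ∈ C, Unif t x) (hS : ∀ x ∈ C, ∀ y ∈ C, x ≠ y → Sep p E x y) (K : ℕ) :
    ∀ R : Finset (Fin N → Fin n), (∀ x ∈ R, Unif t x) →
      (R.card : ℝ) * (1 - (C.card : ℝ) / (TT n N t).card) ^ K < 1 →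
      ∃ f : (Fin N → Fin n) → ℕ, (∀ w ∈ R, f w < K) ∧
        ∀ x ∈ R, ∀ y ∈ R, x ≠ y → f x = f y → Sep p E x y := by
  classical
  induction K with
  | zero =>
    intro R _ hc
    have h1 : R.card = 0 := by
      rw [pow_zero, mul_one] at hc
      have : R.card < 1 := by exact_mod_cast hc
      omega
    rw [Finset.card_eq_zero] at h1
    subst h1
    exact ⟨fun _ => 0, by simp, by simp⟩
  | succ K ih =>
    intro R hR hc
    rcases R.eq_empty_or_nonempty with rfl | ⟨w, hw⟩
    · exact ⟨fun _ => 0, by simp, by simp⟩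
    · have hT : 0 < (TT n N t).card := Finset.card_pos.mpr ⟨w, (mem_TT w).mpr (hR w hw)⟩
      have hTr : (0 : ℝ) < (TT n N t).card := by exact_mod_cast hT
      have hCT : C.card ≤ (TT n N t).card :=
        Finset.card_le_card fun x hx => (mem_TT x).mpr (hC x hx)
      have hq : 0 ≤ 1 - (C.card : ℝ) / (TT n N t).card := by
        rw [sub_nonneg, div_le_one hTr]
        exact_mod_cast hCT
      obtain ⟨s, hs⟩ := exists_cover C R hC hR
      obtain ⟨cov, hcov⟩ : ∃ cov : Finset (Fin N → Fin n), cov = R.filter fun x => x ∘ s ∈ C :=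
        ⟨_, rfl⟩
      rw [← hcov] at hs
      have hsub : cov ⊆ R := by
        rw [hcov]
        exact Finset.filter_subset _ _
      obtain ⟨f, hf1, hf2⟩ := ih (R \ cov) (fun x hx => hR x (Finset.mem_sdiff.mp hx).1) (by
        have h1 : ((R \ cov).card : ℝ) = R.card - cov.card := by
          rw [Finset.card_sdiff_of_subset hsub, Nat.cast_sub (Finset.card_le_card hsub)]
        have h2 : (R.card : ℝ) * C.card ≤ cov.card * (TT n N t).card := by exact_mod_cast hs
        have h3 : (R.card : ℝ) * (C.card / (TT n N t).card) ≤ cov.card := by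
          rw [← mul_div_assoc, div_le_iff₀ hTr]
          exact h2
        have h4 : ((R \ cov).card : ℝ) ≤ R.card * (1 - (C.card : ℝ) / (TT n N t).card) := by
          rw [h1]
          linarith
        refine lt_of_le_of_lt (mul_le_mul_of_nonneg_right h4 (pow_nonneg hq K)) ?_
        rw [mul_assoc, ← pow_succ']
        exact hc)
      refine ⟨fun w => if w ∈ cov then K else f w, ?_, ?_⟩
      · intro x hx
        show (if x ∈ cov then K else f x) < K + 1
        split_ifs with h
        · exact Nat.lt_succ_self K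
        · exact (hf1 x (Finset.mem_sdiff.mpr ⟨hx, h⟩)).trans (Nat.lt_succ_self K)
      · intro x hx y hy hxy hfe
        have hfe' : (if x ∈ cov then K else f x) = (if y ∈ cov then K else f y) := hfe
        by_cases h1 : x ∈ cov
        · by_cases h2 : y ∈ cov
          · rw [hcov] at h1 h2
            refine sep_comp s E x y (hS _ (Finset.mem_filter.mp h1).2 _
              (Finset.mem_filter.mp h2).2 ?_)
            intro h3
            apply hxy
            funext i
            have h4 := congrFun h3 (s⁻¹ i)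
            simpa using h4
          · rw [if_pos h1, if_neg h2] at hfe'
            exact absurd (hf1 y (Finset.mem_sdiff.mpr ⟨hy, h2⟩)) (by rw [← hfe']; exact lt_irrefl K)
        · by_cases h2 : y ∈ cov
          · rw [if_neg h1, if_pos h2] at hfe'
            exact absurd (hf1 x (Finset.mem_sdiff.mpr ⟨hx, h1⟩)) (by rw [hfe']; exact lt_irrefl K)
          · rw [if_neg h1, if_neg h2] at hfe'
            exact hf2 x (Finset.mem_sdiff.mpr ⟨hx, h1⟩) y (Finset.mem_sdiff.mpr ⟨hy, h2⟩) hxy hfe'

end

theorem t_COVER : S_COVER := by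
  classical
  intro n p t K _ E C hC hS hc
  have h1 : Nat.card {w : Fin (n * t) → Fin n // Unif t w} = (TT n (n * t) t).card := by
    rw [Nat.card_eq_fintype_card, Fintype.card_subtype]
    unfold TT
    congr 1
  rw [h1] at hc
  obtain ⟨f, hf1, hf2⟩ := label E C hC hS K (TT n (n * t) t) (fun x hx => (mem_TT x).mp hx) hc
  refine ⟨fun w => (f w.1 : ZMod K), ?_⟩
  intro x y hxy hfe
  have hx := (mem_TT x.1).mpr x.2
  have hy := (mem_TT y.1).mpr y.2
  refine hf2 x.1 hx y.1 hy (fun h => hxy (Subtype.ext h)) ?_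
  have h2 := congrArg ZMod.val hfe
  rwa [ZMod.val_cast_of_lt (hf1 _ hx), ZMod.val_cast_of_lt (hf1 _ hy)] at h2

end Pool.Agent.Run7.h957.CA
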