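import Pool.Agent.Run7.h198.CA.Stm2

/-!
# Project CA (helper198): the piece LOW
-/

set_option autoImplicit false

namespace Pool.Agent.Run7.h957.CA

open Finset Pool.Agent.Run7.h198.CA Pool.Agent.R104.PInter

/-- the number of the subsets with at most `p` elements -/
theorem card_small (t p : ℕ) :
    ((univ : Finset (Finset (Fin t))).filter fun I => I.card ≤ p).card ≤ (t + 1) ^ p := by
  classical
  have h1 : ((univ : Finset (Finset (Fin t))).filter fun I => I.card ≤ p) ⊆
      (univ : Finset (Fin p → Option (Fin t))).image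
        (fun φ => univ.filter fun x => ∃ i, φ i = some x) := by
    intro I hI
    have hI' : I.card ≤ p := (Finset.mem_filter.mp hI).2
    rw [Finset.mem_image]
    refine ⟨fun i => I.toList[(i : ℕ)]?, Finset.mem_univ _, ?_⟩
    ext x
    rw [Finset.mem_filter, ← Finset.mem_toList (s := I), List.mem_iff_getElem?]
    constructor
    · rintro ⟨_, i, hi⟩
      exact ⟨i, hi⟩
    · rintro ⟨i, hi⟩
      refine ⟨Finset.mem_univ _, ⟨i, ?_⟩, hi⟩
      obtain ⟨h2, -⟩ := List.getElem?_eq_some_iff.mp hi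
      rw [Finset.length_toList] at h2
      omega
  refine (Finset.card_le_card h1).trans (Finset.card_image_le.trans ?_)
  rw [Finset.card_univ, Fintype.card_fun, Fintype.card_option, Fintype.card_fin, Fintype.card_fin]

/-- averaging -/
theorem avg (n t : ℕ) (hn : 2 ≤ n) (s : Fin n → ℕ) (hs : ∑ a, s a ≤ t) :
    ∃ a b : Fin n, a ≠ b ∧ n * (s a + s b) ≤ 2 * t := by
  obtain ⟨m, rfl⟩ : ∃ m, n = m + 2 := ⟨n - 2, by omega⟩
  by_contra hno
  push Not at hno
  have h1 : ∑ _a : Fin (m + 2), 2 * t < ∑ a : Fin (m + 2), (m + 2) * (s a + s (a + 1)) := by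
    refine Finset.sum_lt_sum_of_nonempty Finset.univ_nonempty fun a _ => hno a (a + 1) ?_
    intro h
    have h2 : a + 1 = a := h.symm
    rw [add_eq_left] at h2
    exact one_ne_zero h2
  have h2 : ∑ a : Fin (m + 2), s (a + 1) = ∑ a, s a :=
    Equiv.sum_comp (Equiv.addRight (1 : Fin (m + 2))) s
  rw [Finset.sum_const, Finset.card_univ, Fintype.card_fin, smul_eq_mul, ← Finset.mul_sum,
    Finset.sum_add_distrib, h2] at h1
  have h3 := Nat.lt_of_mul_lt_mul_left h1
  omega

section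
variable {n k p t : ℕ} (S : Fin n × Fin k → Finset (Fin t))

/-- the pair of small sets in a part -/
theorem small_pair (hn : 2 ≤ n)
    (hS : ∀ u v, u ≠ v → ((KP n k).Adj u v ↔ p ≤ (S u ∩ S v).card)) (l : Fin k) :
    ∃ a b : Fin n, a ≠ b ∧
      ((S (a, l)).card + (S (b, l)).card : ℝ) ≤ (2 * (t : ℝ)) / n + 2 * n * p := by
  classical
  have hlt : ∀ a b : Fin n, a ≠ b → (S (a, l) ∩ S (b, l)).card < p := by
    intro a b hab
    by_contra h
    have h1 := (hS (a, l) (b, l) (fun h => hab (Prod.mk.inj h).1)).mpr (not_lt.mp h)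
    exact h1 rfl
  obtain ⟨s', hs'⟩ : ∃ s' : Fin n → Finset (Fin t), s' = fun a =>
      S (a, l) \ (univ.erase a).biUnion fun b => S (a, l) ∩ S (b, l) := ⟨_, rfl⟩
  have hle : ∀ a, (S (a, l)).card ≤ (s' a).card + n * p := by
    intro a
    have h1 : (S (a, l)).card ≤ (s' a).card +
        ((univ.erase a).biUnion fun b => S (a, l) ∩ S (b, l)).card := by
      rw [hs']
      have h2 := Finset.card_le_card_sdiff_add_card
        (t := (univ.erase a).biUnion fun b => S (a, l) ∩ S (b, l)) (s := S (a, l))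
      exact h2
    refine h1.trans (Nat.add_le_add_left ?_ _)
    refine (Finset.card_biUnion_le_card_mul _ _ p fun b hb =>
      (hlt a b (Finset.ne_of_mem_erase hb).symm).le).trans ?_
    refine Nat.mul_le_mul_right p ?_
    refine (Finset.card_erase_le).trans ?_
    rw [Finset.card_univ, Fintype.card_fin]
  have hdis : ∑ a, (s' a).card ≤ t := by
    have h1 : (univ.biUnion s').card = ∑ a, (s' a).card := by
      refine Finset.card_biUnion fun a _ b _ hab => ?_
      show Disjoint (s' a) (s' b)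
      rw [Finset.disjoint_left]
      intro x hxa hxb
      rw [hs'] at hxa hxb
      have h2 := Finset.mem_sdiff.mp hxa
      have h3 := Finset.mem_sdiff.mp hxb
      exact h2.2 (Finset.mem_biUnion.mpr ⟨b, Finset.mem_erase.mpr ⟨hab.symm, Finset.mem_univ b⟩,
        Finset.mem_inter.mpr ⟨h2.1, h3.1⟩⟩)
    rw [← h1]
    refine (Finset.card_le_univ _).trans ?_
    rw [Fintype.card_fin]
  obtain ⟨a, b, hab, hb⟩ := avg n t hn (fun a => (s' a).card) hdis
  refine ⟨a, b, hab, ?_⟩
  have hn0 : (0 : ℝ) < n := by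
    have : 0 < n := by omega
    exact_mod_cast this
  have h1 : ((n : ℝ) * ((s' a).card + (s' b).card)) ≤ 2 * t := by exact_mod_cast hb
  have h2 : ((s' a).card + (s' b).card : ℝ) ≤ 2 * t / n := by
    rw [le_div_iff₀ hn0]
    linarith
  have h3 : ((S (a, l)).card : ℝ) ≤ (s' a).card + n * p := by exact_mod_cast hle a
  have h4 : ((S (b, l)).card : ℝ) ≤ (s' b).card + n * p := by exact_mod_cast hle b
  linarith

end

theorem t_LOW : S_LOW := by
  classical
  intro n p t k hn hp ⟨S, hS⟩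
  choose a b hab hsm using small_pair S hn hS
  obtain ⟨E, hE⟩ : ∃ E : ℝ, E = (2 * (t : ℝ)) / n + 2 * n * p := ⟨_, rfl⟩
  rw [← hE]
  rw [← hE] at hsm
  obtain ⟨I, hI⟩ : ∃ I : Fin k → Finset (Fin t), ∀ l, I l = S (a l, l) ∩ S (b l, l) :=
    ⟨_, fun _ => rfl⟩
  have hIp : ∀ l, (I l).card < p := by
    intro l
    rw [hI]
    by_contra h
    have h1 := (hS (a l, l) (b l, l) (fun h => hab l (Prod.mk.inj h).1)).mpr (not_lt.mp h)
    exact h1 rfl
  obtain ⟨Fam, hFam⟩ : ∃ Fam : Fin k → Finset (Finset (Fin t)),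
      ∀ l, Fam l = Finset.Icc (S (a l, l) \ I l) (S (b l, l) \ I l)ᶜ := ⟨_, fun _ => rfl⟩
  have hdisj : ∀ l, S (a l, l) \ I l ⊆ (S (b l, l) \ I l)ᶜ := by
    intro l x hx
    rw [Finset.mem_compl, Finset.mem_sdiff]
    rintro ⟨h1, h2⟩
    apply h2
    rw [hI, Finset.mem_inter]
    exact ⟨(Finset.mem_sdiff.mp hx).1, h1⟩
  have hcard : ∀ l, (2 : ℝ) ^ t ≤ (Fam l).card * (2 : ℝ) ^ E := by
    intro l
    have h1 : (Fam l).card * 2 ^ ((S (a l, l) \ I l).card + (S (b l, l) \ I l).card) = 2 ^ t := by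
      rw [hFam, Finset.card_Icc_finset (hdisj l), ← pow_add]
      congr 1
      have h2 := Finset.card_le_card (hdisj l)
      have h3 := Finset.card_add_card_compl (S (b l, l) \ I l)
      rw [Fintype.card_fin] at h3
      omega
    have h2 : ((S (a l, l) \ I l).card + (S (b l, l) \ I l).card : ℝ) ≤ E := by
      refine le_trans ?_ (hsm l)
      have h3 : (S (a l, l) \ I l).card ≤ (S (a l, l)).card :=
        Finset.card_le_card Finset.sdiff_subset
      have h4 : (S (b l, l) \ I l).card ≤ (S (b l, l)).card :=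
        Finset.card_le_card Finset.sdiff_subset
      exact_mod_cast Nat.add_le_add h3 h4
    have h3 : (2 : ℝ) ^ ((S (a l, l) \ I l).card + (S (b l, l) \ I l).card) ≤ (2 : ℝ) ^ E := by
      rw [← Real.rpow_natCast]
      refine Real.rpow_le_rpow_of_exponent_le (by norm_num) ?_
      push_cast
      exact h2
    calc (2 : ℝ) ^ t = (Fam l).card *
          (2 : ℝ) ^ ((S (a l, l) \ I l).card + (S (b l, l) \ I l).card) := by exact_mod_cast h1.symm
      _ ≤ _ := mul_le_mul_of_nonneg_left h3 (Nat.cast_nonneg _)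
  obtain ⟨lab, hlab⟩ : ∃ lab : Fin k → Fin n × Fin n × Finset (Fin t),
      ∀ l, lab l = (a l, b l, I l) := ⟨_, fun _ => rfl⟩
  have hfd : ∀ l m, l ≠ m → lab l = lab m → Disjoint (Fam l) (Fam m) := by
    intro l m hlm hlab'
    rw [hlab, hlab, Prod.mk.injEq, Prod.mk.injEq] at hlab'
    obtain ⟨h1, h2, h3⟩ := hlab'
    rw [Finset.disjoint_left]
    intro X hX hY
    rw [hFam, Finset.mem_Icc] at hX hY
    have h4 : S (a l, l) ∩ S (b m, m) ⊆ I l := by
      intro x hx
      rw [Finset.mem_inter] at hx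
      by_contra hxI
      have h5 : x ∈ X := hX.1 (Finset.mem_sdiff.mpr ⟨hx.1, hxI⟩)
      have h6 := hY.2 h5
      rw [Finset.mem_compl, Finset.mem_sdiff, ← h3] at h6
      exact h6 ⟨hx.2, hxI⟩
    have h5 : p ≤ (S (a l, l) ∩ S (b m, m)).card :=
      (hS (a l, l) (b m, m) (fun h => hlm (Prod.mk.inj h).2)).mp hlm
    exact absurd (h5.trans (Finset.card_le_card h4)) (not_le.mpr (hIp l))
  have hfib : ∀ v : Fin n × Fin n × Finset (Fin t),
      (((univ : Finset (Fin k)).filter fun l => lab l = v).card : ℝ) ≤ (2 : ℝ) ^ E := by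
    intro v
    obtain ⟨P, hP⟩ : ∃ P : Finset (Fin k), P = (univ : Finset (Fin k)).filter fun l => lab l = v :=
      ⟨_, rfl⟩
    rw [← hP]
    have h1 : (P.biUnion Fam).card = ∑ l ∈ P, (Fam l).card := by
      refine Finset.card_biUnion fun l hl m hm hlm => hfd l m hlm ?_
      rw [hP] at hl hm
      rw [(Finset.mem_filter.mp hl).2, (Finset.mem_filter.mp hm).2]
    have h2 : (P.biUnion Fam).card ≤ 2 ^ t := by
      refine (Finset.card_le_univ _).trans ?_
      rw [Fintype.card_finset, Fintype.card_fin]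
    have h3 : (∑ l ∈ P, ((Fam l).card : ℝ)) ≤ (2 : ℝ) ^ t := by
      rw [h1] at h2
      exact_mod_cast h2
    have h4 : (P.card : ℝ) * (2 : ℝ) ^ t ≤ (2 : ℝ) ^ t * (2 : ℝ) ^ E := by
      calc (P.card : ℝ) * (2 : ℝ) ^ t = ∑ _l ∈ P, (2 : ℝ) ^ t := by
            rw [Finset.sum_const, nsmul_eq_mul]
        _ ≤ ∑ l ∈ P, (Fam l).card * (2 : ℝ) ^ E := Finset.sum_le_sum fun l _ => hcard l
        _ = (∑ l ∈ P, ((Fam l).card : ℝ)) * (2 : ℝ) ^ E := by rw [Finset.sum_mul]
        _ ≤ (2 : ℝ) ^ t * (2 : ℝ) ^ E := mul_le_mul_of_nonneg_right h3 (by positivity)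
    rw [mul_comm] at h4
    exact le_of_mul_le_mul_left h4 (by positivity)
  obtain ⟨L, hL⟩ : ∃ L : Finset (Fin n × Fin n × Finset (Fin t)),
      L = univ ×ˢ univ ×ˢ ((univ : Finset (Finset (Fin t))).filter fun I => I.card ≤ p) := ⟨_, rfl⟩
  have hLc : L.card ≤ n * (n * (t + 1) ^ p) := by
    rw [hL, Finset.card_product, Finset.card_product, Finset.card_univ, Fintype.card_fin]
    exact Nat.mul_le_mul_left n (Nat.mul_le_mul_left n (card_small t p))
  have hk : (k : ℝ) = ∑ v ∈ L, (((univ : Finset (Fin k)).filter fun l => lab l = v).card : ℝ) := by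
    have h1 : ((univ : Finset (Fin k))).card = ∑ v ∈ L,
        ((univ : Finset (Fin k)).filter fun l => lab l = v).card := by
      refine Finset.card_eq_sum_card_fiberwise fun l _ => ?_
      rw [hL, hlab]
      simp only [Finset.coe_product, Set.mem_prod, Finset.coe_univ, Set.mem_univ, true_and,
        Finset.mem_coe, Finset.mem_filter, Finset.mem_univ]
      exact (hIp l).le
    rw [Finset.card_univ, Fintype.card_fin] at h1
    exact_mod_cast h1
  calc (k : ℝ) = ∑ v ∈ L, (((univ : Finset (Fin k)).filter fun l => lab l = v).card : ℝ) := hk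
    _ ≤ ∑ _v ∈ L, (2 : ℝ) ^ E := Finset.sum_le_sum fun v _ => hfib v
    _ = L.card * (2 : ℝ) ^ E := by rw [Finset.sum_const, nsmul_eq_mul]
    _ ≤ ((n : ℝ) ^ 2 * ((t : ℝ) + 1) ^ p) * (2 : ℝ) ^ E := by
        refine mul_le_mul_of_nonneg_right ?_ (by positivity)
        have h1 : (L.card : ℝ) ≤ (n * (n * (t + 1) ^ p) : ℕ) := by exact_mod_cast hLc
        refine h1.trans (le_of_eq ?_)
        push_cast
        ring

end Pool.Agent.Run7.h957.CA
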