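import Pool.Agent.Run7.h198.CA.Stm2

/-!
# Project CA (helper198): the piece REP
-/

set_option autoImplicit false

namespace Pool.Agent.Run7.h957.CA

open Finset Pool.Agent.Run7.h198.CA Pool.Agent.R104.PInter

section
variable {n N p k : ℕ}

/-- the points of the vertex `(α, l)` -/
def pts (p : ℕ) (x : Fin k → Fin N → Fin n) (u : Fin n × Fin k) :
    Finset (Fin N ⊕ Fin n × Fin p) :=
  (univ.filter fun i => x u.2 i = u.1).disjSum (univ.filter fun y : Fin n × Fin p => y.1 = u.1)

theorem mem_inl (x : Fin k → Fin N → Fin n) (u : Fin n × Fin k) (i : Fin N) :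
    (Sum.inl i : Fin N ⊕ Fin n × Fin p) ∈ pts p x u ↔ x u.2 i = u.1 := by
  unfold pts
  simp

theorem mem_inr (x : Fin k → Fin N → Fin n) (u : Fin n × Fin k) (y : Fin n × Fin p) :
    (Sum.inr y : Fin N ⊕ Fin n × Fin p) ∈ pts p x u ↔ y.1 = u.1 := by
  unfold pts
  simp

theorem pts_same (x : Fin k → Fin N → Fin n) (u v : Fin n × Fin k) (h2 : u.2 = v.2)
    (h1 : u.1 ≠ v.1) : pts p x u ∩ pts p x v = ∅ := by
  ext z
  simp only [Finset.mem_inter, Finset.notMem_empty, iff_false, not_and]
  rcases z with i | y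
  · rw [mem_inl, mem_inl, h2]
    intro h3 h4
    exact h1 (h3.symm.trans h4)
  · rw [mem_inr, mem_inr]
    intro h3 h4
    exact h1 (h3.symm.trans h4)

theorem pts_diff (x : Fin k → Fin N → Fin n) (u v : Fin n × Fin k)
    (hsep : u.1 ≠ v.1 → p ≤ (univ.filter fun i => x u.2 i = u.1 ∧ x v.2 i = v.1).card) :
    p ≤ (pts p x u ∩ pts p x v).card := by
  by_cases h1 : u.1 = v.1
  · have h2 : (univ : Finset (Fin p)).card ≤ (pts p x u ∩ pts p x v).card := by
      refine Finset.card_le_card_of_injOn (fun j => Sum.inr (u.1, j)) ?_ ?_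
      · intro j _
        rw [Finset.mem_coe, Finset.mem_inter, mem_inr, mem_inr]
        exact ⟨rfl, h1⟩
      · intro j _ j' _ hjj
        have h3 := Sum.inr_injective hjj
        exact (Prod.mk.injEq _ _ _ _ ▸ h3 : u.1 = u.1 ∧ j = j').2
    rwa [Finset.card_univ, Fintype.card_fin] at h2
  · refine (hsep h1).trans (Finset.card_le_card_of_injOn (fun i => Sum.inl i) ?_ ?_)
    · intro i hi
      have hi' := (Finset.mem_filter.mp (Finset.mem_coe.mp hi)).2
      rw [Finset.mem_coe, Finset.mem_inter, mem_inl, mem_inl]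
      exact hi'
    · intro i _ i' _ hii
      exact Sum.inl_injective hii

end

theorem t_REP : S_REP := by
  classical
  intro n p t k hp hcode
  obtain ⟨C, hC, -, hS⟩ := hcode
  obtain ⟨f⟩ : Nonempty (Fin k ↪ C) := by
    refine Function.Embedding.nonempty_of_card_le ?_
    rw [Fintype.card_fin, Fintype.card_coe]
    exact hC
  obtain ⟨x, hx⟩ : ∃ x : Fin k → Fin (n * t) → Fin n, ∀ l m, l ≠ m →
      Sep p (allPairs n) (x l) (x m) := by
    refine ⟨fun l => (f l).1, fun l m hlm => hS _ (f l).2 _ (f m).2 ?_⟩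
    intro h
    exact hlm (f.injective (Subtype.ext h))
  have e : (Fin (n * t) ⊕ Fin n × Fin p) ≃ Fin (n * t + n * p) :=
    Fintype.equivOfCardEq (by
      rw [Fintype.card_sum, Fintype.card_prod, Fintype.card_fin, Fintype.card_fin,
        Fintype.card_fin, Fintype.card_fin])
  refine ⟨fun u => (pts p x u).map e.toEmbedding, ?_⟩
  intro u v huv
  rw [← Finset.map_inter, Finset.card_map]
  constructor
  · intro hadj
    have hadj' : u.2 ≠ v.2 := hadj
    refine pts_diff x u v fun h1 => ?_
    exact hx u.2 v.2 hadj' (u.1, v.1) (by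
      unfold allPairs
      rw [Finset.mem_filter]
      exact ⟨Finset.mem_univ _, h1⟩)
  · intro hcard
    show u.2 ≠ v.2
    intro h2
    have h1 : u.1 ≠ v.1 := fun h1 => huv (Prod.ext h1 h2)
    rw [pts_same x u v h2 h1, Finset.card_empty] at hcard
    omega

end Pool.Agent.Run7.h957.CA
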